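import Pool.Agent.V1138.AB.Core

namespace Pool.V1138.AB

open Filter Topology Set

variable {s L : ℕ → ℝ} {κ : ℝ}

section
variable (H : Hyp s L κ)
include H

lemma Hyp.d0 : (s + L) 0 = 0 := by simp [H.s0, H.L0]
lemma Hyp.dk (i : ℕ) : κ ≤ (s + L) (i+1) - (s + L) i := H.hκ i
lemma Hyp.Lm : Monotone L := monotone_nat_of_le_succ H.Lmono
lemma Hyp.sm : Monotone s := monotone_nat_of_le_succ H.smono
lemma Hyp.Lnn (i : ℕ) : 0 ≤ L i := by rw [← H.L0]; exact H.Lm (Nat.zero_le _)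
lemma Hyp.snn (i : ℕ) : 0 ≤ s i := by rw [← H.s0]; exact H.sm (Nat.zero_le _)
lemma Hyp.Ld (i : ℕ) : L i ≤ (s + L) i := by have := H.snn i; simp; exact this

/-- Poisson equation in difference form -/
lemma Hyp.hE {lam : ℝ} (hl : 0 < lam) (i : ℕ) :
    lam * (h (s+L) L lam (i+1) - h (s+L) L lam i) + (s+L) i * h (s+L) L lam (i-1)
      - (s+L) (i+1) * h (s+L) L lam i + (L (i+1) - L i) = 0 := by
  have h1 := poisson H.κpos H.d0 H.dk hl H.Lnn H.Ld i
  have h2 := poisson H.κpos H.d0 H.dk hl H.Lnn H.Ld (i+1)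
  simp only [Nat.add_sub_cancel] at h2
  linear_combination h2 - h1

lemma Hyp.hnn {lam : ℝ} (hl : 0 < lam) (i : ℕ) : 0 ≤ h (s+L) L lam i := by
  obtain ⟨B, hB⟩ := h_bdd H.κpos H.d0 H.dk hl H.Lnn H.Ld
  refine maxp (e := s + L) (κf := fun i => (s+L) (i+1) - (s+L) i) (src := fun i => L (i+1) - L i)
    hl H.κpos (d_nonneg H.κpos H.d0 H.dk) H.dk (fun i => by have := H.Lmono i; linarith) hB
    (fun i => ?_) i
  have := H.hE hl i
  linear_combination this

lemma Hyp.hle {lam : ℝ} (hl : 0 < lam) (i : ℕ) : h (s+L) L lam i ≤ 1 := by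
  obtain ⟨B, hB⟩ := h_bdd H.κpos H.d0 H.dk hl H.Lnn H.Ld
  have : 0 ≤ (fun i => 1 - h (s+L) L lam i) i := by
    refine maxp (k := fun i => 1 - h (s+L) L lam i) (e := s + L) (κf := fun i => (s+L) (i+1) - (s+L) i)
      (src := fun i => s (i+1) - s i) (B := 1 + B)
      hl H.κpos (d_nonneg H.κpos H.d0 H.dk) H.dk (fun i => by have := H.smono i; linarith)
      (fun i => ?_) (fun i => ?_) i
    · calc |1 - h (s+L) L lam i| ≤ |(1:ℝ)| + |h (s+L) L lam i| := abs_sub _ _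
        _ ≤ 1 + B := by rw [abs_one]; linarith [hB i]
    have := H.hE hl i
    simp only [Pi.add_apply] at this ⊢
    linear_combination - this
  simpa using this

/-- the source term for the increments of `h` -/
lemma Hyp.src_nn {lam : ℝ} (hl : 0 < lam) (i : ℕ) :
    0 ≤ ((s (i+1) - s i) - (s (i+2) - s (i+1))) * h (s+L) L lam i
      + ((L (i+2) - L (i+1)) - (L (i+1) - L i)) * (1 - h (s+L) L lam i) := by
  have h1 := H.sconc i
  have h2 := H.Lconv i
  have h3 := H.hnn hl i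
  have h4 := H.hle hl i
  apply add_nonneg <;> apply mul_nonneg <;> linarith

lemma Hyp.e_eq {lam : ℝ} (hl : 0 < lam) (i : ℕ) :
    lam * ((h (s+L) L lam (i+2) - h (s+L) L lam (i+1)) - (h (s+L) L lam (i+1) - h (s+L) L lam i))
      + (s+L) i * ((h (s+L) L lam (i-1+1) - h (s+L) L lam (i-1))
        - (h (s+L) L lam (i+1) - h (s+L) L lam i))
      - (((s+L) (i+1) - (s+L) i) + ((s+L) (i+2) - (s+L) (i+1)))
        * (h (s+L) L lam (i+1) - h (s+L) L lam i)
      + (((s (i+1) - s i) - (s (i+2) - s (i+1))) * h (s+L) L lam i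
      + ((L (i+2) - L (i+1)) - (L (i+1) - L i)) * (1 - h (s+L) L lam i)) = 0 := by
  have h1 := H.hE hl i
  have h2 := H.hE hl (i+1)
  simp only [Nat.add_sub_cancel] at h2
  rcases Nat.eq_zero_or_pos i with rfl | hi
  · have hs0 := H.s0
    have hL0 := H.L0
    simp only [Pi.add_apply, zero_add, hs0, hL0] at h1 h2 ⊢
    linear_combination h2 - h1
  · rw [Nat.sub_add_cancel hi]
    simp only [Pi.add_apply] at h1 h2 ⊢
    linear_combination h2 - h1

lemma Hyp.e_nn {lam : ℝ} (hl : 0 < lam) (i : ℕ) : 0 ≤ h (s+L) L lam (i+1) - h (s+L) L lam i := by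
  obtain ⟨B, hB⟩ := h_bdd H.κpos H.d0 H.dk hl H.Lnn H.Ld
  refine maxp (k := fun i => h (s+L) L lam (i+1) - h (s+L) L lam i) (e := s + L)
    (κf := fun i => ((s+L) (i+1) - (s+L) i) + ((s+L) (i+2) - (s+L) (i+1)))
    (src := fun i => ((s (i+1) - s i) - (s (i+2) - s (i+1))) * h (s+L) L lam i
      + ((L (i+2) - L (i+1)) - (L (i+1) - L i)) * (1 - h (s+L) L lam i)) (B := B + B)
    hl H.κpos (d_nonneg H.κpos H.d0 H.dk) (fun i => ?_) (H.src_nn hl) (fun i => ?_) (fun i => ?_) i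
  · have h1 := H.dk i
    have h2 := H.dk (i+1)
    have h3 := H.κpos
    linarith
  · calc |h (s+L) L lam (i+1) - h (s+L) L lam i| ≤ |h (s+L) L lam (i+1)| + |h (s+L) L lam i| := abs_sub _ _
      _ ≤ B + B := add_le_add (hB _) (hB _)
  · exact H.e_eq hl i

/-- `h` is monotone in `lam`. -/
lemma Hyp.k_eq {lam lam' : ℝ} (hl : 0 < lam) (hl' : 0 < lam') (i : ℕ) :
    lam * ((h (s+L) L lam' (i+1) - h (s+L) L lam (i+1)) - (h (s+L) L lam' i - h (s+L) L lam i))
      + (s+L) i * ((h (s+L) L lam' (i-1) - h (s+L) L lam (i-1))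
        - (h (s+L) L lam' i - h (s+L) L lam i))
      - ((s+L) (i+1) - (s+L) i) * (h (s+L) L lam' i - h (s+L) L lam i)
      + (lam' - lam) * (h (s+L) L lam' (i+1) - h (s+L) L lam' i) = 0 := by
  have h1 := H.hE hl i
  have h2 := H.hE hl' i
  linear_combination h2 - h1

lemma Hyp.k_nn {lam lam' : ℝ} (hl : 0 < lam) (hll : lam ≤ lam') (i : ℕ) :
    0 ≤ h (s+L) L lam' i - h (s+L) L lam i := by
  have hl' : 0 < lam' := hl.trans_le hll
  obtain ⟨B, hB⟩ := h_bdd H.κpos H.d0 H.dk hl H.Lnn H.Ld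
  obtain ⟨B', hB'⟩ := h_bdd H.κpos H.d0 H.dk hl' H.Lnn H.Ld
  refine maxp (k := fun i => h (s+L) L lam' i - h (s+L) L lam i) (e := s + L)
    (κf := fun i => (s+L) (i+1) - (s+L) i)
    (src := fun i => (lam' - lam) * (h (s+L) L lam' (i+1) - h (s+L) L lam' i)) (B := B' + B)
    hl H.κpos (d_nonneg H.κpos H.d0 H.dk) H.dk
    (fun i => mul_nonneg (by linarith) (H.e_nn hl' i)) (fun i => ?_) (fun i => H.k_eq hl hl' i) i
  calc |h (s+L) L lam' i - h (s+L) L lam i| ≤ |h (s+L) L lam' i| + |h (s+L) L lam i| := abs_sub _ _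
    _ ≤ B' + B := add_le_add (hB' _) (hB _)

/-- positivity of `h` if abandonment is unbounded -/
lemma Hyp.hpos (hL : ∀ i, ∃ j ≥ i, L j < L (j+1)) {lam : ℝ} (hl : 0 < lam) (i : ℕ) :
    0 < h (s+L) L lam i := by
  by_contra hcon
  have h0 : h (s+L) L lam i = 0 := le_antisymm (not_lt.mp hcon) (H.hnn hl i)
  have step : ∀ j, h (s+L) L lam j = 0 → h (s+L) L lam (j+1) = 0 ∧ L (j+1) - L j = 0 := by
    intro j hj
    have h1 := H.hE hl j
    rw [hj] at h1
    have h2 := H.hnn hl (j+1)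
    have h3 := mul_nonneg (d_nonneg H.κpos H.d0 H.dk j) (H.hnn hl (j-1))
    have h4 := H.Lmono j
    have h5 := mul_nonneg hl.le h2
    have h6 : lam * h (s+L) L lam (j+1) = 0 := by nlinarith
    refine ⟨by simpa [hl.ne'] using h6, by nlinarith⟩
  have all : ∀ n, h (s+L) L lam (i+n) = 0 := by
    intro n
    induction n with
    | zero => exact h0
    | succ n ih => exact (step _ ih).1
  obtain ⟨j, hj, hj2⟩ := hL i
  obtain ⟨n, rfl⟩ := Nat.exists_eq_add_of_le hj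
  have := (step _ (all n)).2
  linarith

/-- strictness: some `k i > 0` -/
lemma Hyp.k_pos {lam lam' : ℝ} (hl : 0 < lam) (hll : lam < lam') (j : ℕ)
    (hsrc : ∀ lam'' : ℝ, 0 < lam'' →
      0 < ((s (j+1) - s j) - (s (j+2) - s (j+1))) * h (s+L) L lam'' j
      + ((L (j+2) - L (j+1)) - (L (j+1) - L j)) * (1 - h (s+L) L lam'' j)) :
    ∃ i, 0 < h (s+L) L lam' i - h (s+L) L lam i := by
  have hl' : 0 < lam' := hl.trans hll
  by_contra hcon
  push Not at hcon
  have k0 : ∀ i, h (s+L) L lam' i - h (s+L) L lam i = 0 :=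
    fun i => le_antisymm (hcon i) (H.k_nn hl hll.le i)
  have e0 : ∀ i, h (s+L) L lam' (i+1) - h (s+L) L lam' i = 0 := by
    intro i
    have h1 := H.k_eq hl hl' i
    rw [k0, k0, k0] at h1
    have h2 : (lam' - lam) * (h (s+L) L lam' (i+1) - h (s+L) L lam' i) = 0 := by linarith
    rcases mul_eq_zero.mp h2 with h3 | h3
    · linarith
    · exact h3
  have h1 := H.e_eq hl' j
  have h2 := hsrc lam' hl'
  have e1 := e0 (j+1)
  have e2 := e0 j
  have e3 := e0 (j-1)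
  simp only [show j + 1 + 1 = j + 2 by ring] at e1
  rw [e1, e2, e3] at h1
  linarith

end

end Pool.V1138.AB
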