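import Mathlib

/-! Birth–death chains with birth rate `lam`, service rates `s`, abandonment rates `L`:
the Poisson equation and a maximum principle. -/

namespace Pool.V1138.AB

open Filter Topology Set

structure Hyp (s L : ℕ → ℝ) (κ : ℝ) : Prop where
  s0 : s 0 = 0
  L0 : L 0 = 0
  smono : ∀ i, s i ≤ s (i+1)
  Lmono : ∀ i, L i ≤ L (i+1)
  sconc : ∀ i, s (i+2) - s (i+1) ≤ s (i+1) - s i
  Lconv : ∀ i, L (i+1) - L i ≤ L (i+2) - L (i+1)
  κpos : 0 < κ
  hκ : ∀ i, κ ≤ (s (i+1) + L (i+1)) - (s i + L i)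

/-- unnormalised stationary weights -/
noncomputable def a (d : ℕ → ℝ) (lam : ℝ) (i : ℕ) : ℝ := ∏ j ∈ Finset.range i, (lam / d (j+1))

lemma a_zero (d : ℕ → ℝ) (lam : ℝ) : a d lam 0 = 1 := by simp [a]

lemma a_succ (d : ℕ → ℝ) (lam : ℝ) (i : ℕ) : a d lam (i+1) = a d lam i * (lam / d (i+1)) := by
  rw [a, a, Finset.prod_range_succ]

section
variable {d : ℕ → ℝ} {κ : ℝ}

lemma d_ge (hκ : 0 < κ) (h0 : d 0 = 0) (hd : ∀ i, κ ≤ d (i+1) - d i) (i : ℕ) : κ * i ≤ d i := by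
  induction i with
  | zero => simp [h0]
  | succ n ih => have := hd n; push_cast; nlinarith

lemma d_pos (hκ : 0 < κ) (h0 : d 0 = 0) (hd : ∀ i, κ ≤ d (i+1) - d i) (i : ℕ) : 0 < d (i+1) := by
  have h1 := d_ge hκ h0 hd (i+1)
  have : 0 < κ * ((i+1 : ℕ) : ℝ) := by positivity
  linarith

lemma d_nonneg (hκ : 0 < κ) (h0 : d 0 = 0) (hd : ∀ i, κ ≤ d (i+1) - d i) (i : ℕ) : 0 ≤ d i := by
  have h1 := d_ge hκ h0 hd i
  have : 0 ≤ κ * (i : ℝ) := by positivity
  linarith

lemma d_mono (hκ : 0 < κ) (hd : ∀ i, κ ≤ d (i+1) - d i) : Monotone d :=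
  monotone_nat_of_le_succ (fun i => by have := hd i; linarith)

lemma a_pos (hκ : 0 < κ) (h0 : d 0 = 0) (hd : ∀ i, κ ≤ d (i+1) - d i) {lam : ℝ} (hl : 0 < lam)
    (i : ℕ) : 0 < a d lam i := by
  induction i with
  | zero => simp [a_zero]
  | succ n ih => rw [a_succ]; exact mul_pos ih (div_pos hl (d_pos hκ h0 hd n))

lemma a_bal (hκ : 0 < κ) (h0 : d 0 = 0) (hd : ∀ i, κ ≤ d (i+1) - d i) (lam : ℝ)
    (i : ℕ) : a d lam (i+1) * d (i+1) = lam * a d lam i := by
  rw [a_succ]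
  have := (d_pos hκ h0 hd i).ne'
  field_simp

lemma a_abs_le (hκ : 0 < κ) (h0 : d 0 = 0) (hd : ∀ i, κ ≤ d (i+1) - d i) (lam : ℝ)
    (i : ℕ) : |a d lam i| ≤ (|lam| / κ)^i / (Nat.factorial i) := by
  induction i with
  | zero => simp [a_zero]
  | succ n ih =>
    rw [a_succ, abs_mul, abs_div, abs_of_pos (d_pos hκ h0 hd n)]
    have h1 := d_ge hκ h0 hd (n+1)
    have h2 : |lam| / d (n+1) ≤ |lam| / (κ * ((n+1 : ℕ) : ℝ)) :=
      div_le_div_of_nonneg_left (abs_nonneg _) (by positivity) h1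
    calc |a d lam n| * (|lam| / d (n+1)) ≤ ((|lam| / κ)^n / (Nat.factorial n)) * (|lam| / (κ * ((n+1 : ℕ) : ℝ))) :=
          mul_le_mul ih h2 (div_nonneg (abs_nonneg _) (d_pos hκ h0 hd n).le) (by positivity)
      _ = (|lam| / κ)^(n+1) / (Nat.factorial (n+1)) := by
          rw [Nat.factorial_succ, pow_succ]; push_cast; field_simp

lemma a_summable (hκ : 0 < κ) (h0 : d 0 = 0) (hd : ∀ i, κ ≤ d (i+1) - d i) (lam : ℝ) :
    Summable (a d lam) := by
  refine Summable.of_norm_bounded (Real.summable_pow_div_factorial (|lam| / κ)) (fun i => ?_)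
  rw [Real.norm_eq_abs]; exact a_abs_le hκ h0 hd lam i

lemma a_sub (hκ : 0 < κ) (h0 : d 0 = 0) (hd : ∀ i, κ ≤ d (i+1) - d i) {lam : ℝ} (hl : 0 < lam)
    (i k : ℕ) : a d lam (i + k) ≤ a d lam i * a d lam k := by
  induction k with
  | zero => simp [a_zero]
  | succ n ih =>
    rw [← add_assoc, a_succ, a_succ, ← mul_assoc]
    have h1 := d_pos hκ h0 hd n
    have h2 : d (n+1) ≤ d (i+n+1) := d_mono hκ hd (by omega)
    exact mul_le_mul ih (div_le_div_of_nonneg_left hl.le h1 h2) (div_nonneg hl.le (h1.le.trans h2))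
      (mul_nonneg (a_pos hκ h0 hd hl i).le (a_pos hκ h0 hd hl n).le)

/-- Maximum principle. -/
lemma maxp {e κf src k : ℕ → ℝ} {lam B : ℝ} (hl : 0 < lam) (hκ : 0 < κ)
    (he : ∀ i, 0 ≤ e i) (hκf : ∀ i, κ ≤ κf i) (hs : ∀ i, 0 ≤ src i)
    (hk : ∀ i, |k i| ≤ B)
    (heq : ∀ i, lam * (k (i+1) - k i) + e i * (k (i-1) - k i) - κf i * k i + src i = 0) :
    ∀ i, 0 ≤ k i := by
  -- barrier
  obtain ⟨C, hC⟩ : ∃ C : ℝ, 0 < C ∧ lam < κ * C :=
    ⟨lam / κ + 1, by positivity, by rw [mul_add, mul_div_cancel₀ _ hκ.ne']; linarith⟩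
  have key : ∀ ε : ℝ, 0 < ε → ∀ i, 0 ≤ k i + ε * (i + C) := by
    intro ε hε
    by_contra hcon
    push Not at hcon
    obtain ⟨i0, hi0⟩ := hcon
    -- minimum is attained
    set u : ℕ → ℝ := fun i => k i + ε * (i + C) with hu
    obtain ⟨N, hN⟩ : ∃ N : ℕ, B < ε * N := by
      obtain ⟨N, hN⟩ := exists_nat_gt (B / ε)
      exact ⟨N, by rwa [div_lt_iff₀ hε, mul_comm] at hN⟩
    have hbig : ∀ i, N ≤ i → 0 ≤ u i := by
      intro i hi
      have h1 : -B ≤ k i := (abs_le.mp (hk i)).1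
      have h2 : (N:ℝ) ≤ i := by exact_mod_cast hi
      have h3 : ε * N ≤ ε * i := mul_le_mul_of_nonneg_left h2 hε.le
      have h4 : 0 < ε * C := mul_pos hε hC.1
      simp only [hu]; rw [mul_add]; linarith
    obtain ⟨j, hjm, hj⟩ := Finset.exists_min_image (Finset.range (N+1)) u ⟨0, by simp⟩
    have hi0N : i0 < N := by
      by_contra hge
      push Not at hge
      have := hbig i0 hge
      linarith
    have hjneg : u j < 0 := lt_of_le_of_lt (hj i0 (by simp; omega)) hi0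
    have hjmin : ∀ i, u j ≤ u i := by
      intro i
      rcases Nat.lt_or_ge i N with h | h
      · exact hj i (by simp; omega)
      · exact hjneg.le.trans (hbig i h)
    have h1 : 0 ≤ lam * (u (j+1) - u j) := mul_nonneg hl.le (by linarith [hjmin (j+1)])
    have h2 : 0 ≤ e j * (u (j-1) - u j) := mul_nonneg (he j) (by linarith [hjmin (j-1)])
    have h3 : 0 < κf j * (- u j) := mul_pos (hκ.trans_le (hκf j)) (by linarith)
    have h4 := heq j
    -- 𝓛 u < 0
    have h5 : lam * (u (j+1) - u j) + e j * (u (j-1) - u j) - κf j * u j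
        = - src j + ε * (lam + e j * (((j-1 : ℕ) : ℝ) - j) - κf j * (j + C)) := by
      simp only [hu]; push_cast
      linear_combination h4
    have h6 : e j * (((j-1 : ℕ) : ℝ) - j) ≤ 0 := by
      apply mul_nonpos_of_nonneg_of_nonpos (he j)
      have : ((j-1 : ℕ) : ℝ) ≤ j := by exact_mod_cast Nat.sub_le _ _
      linarith
    have h7 : κ * C ≤ κf j * (j + C) := by
      have hj0 : (0:ℝ) ≤ j := Nat.cast_nonneg _
      exact mul_le_mul (hκf j) (by linarith) hC.1.le (hκ.le.trans (hκf j))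
    have h8 : ε * (lam + e j * (((j-1 : ℕ) : ℝ) - j) - κf j * (j + C)) < 0 :=
      mul_neg_of_pos_of_neg hε (by linarith [hC.2])
    have := hs j
    nlinarith
  intro i
  by_contra hcon
  push Not at hcon
  have hpos : (0:ℝ) < i + C := by have := hC.1; positivity
  have := key (-(k i) / (2 * (i + C))) (by apply div_pos (by linarith) (by positivity)) i
  have h2 : -(k i) / (2 * (i + C)) * (i + C) = -(k i)/2 := by field_simp
  rw [h2] at this
  linarith

/-- weighted sums -/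
lemma aL_summable (hκ : 0 < κ) (h0 : d 0 = 0) (hd : ∀ i, κ ≤ d (i+1) - d i) {lam : ℝ} (hl : 0 < lam)
    {L : ℕ → ℝ} (hL0 : ∀ i, 0 ≤ L i) (hLd : ∀ i, L i ≤ d i) :
    Summable (fun i => a d lam i * L i) := by
  have h1 : Summable (fun i => a d lam i * d i) := by
    rw [← summable_nat_add_iff 1]
    refine ((a_summable hκ h0 hd lam).mul_left lam).congr (fun i => ?_)
    exact (a_bal hκ h0 hd lam i).symm
  refine Summable.of_nonneg_of_le (fun i => ?_) (fun i => ?_) h1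
  · exact mul_nonneg (a_pos hκ h0 hd hl i).le (hL0 i)
  · exact mul_le_mul_of_nonneg_left (hLd i) (a_pos hκ h0 hd hl i).le

noncomputable def Z (d : ℕ → ℝ) (lam : ℝ) : ℝ := ∑' i, a d lam i

/-- mean abandonment rate -/
noncomputable def ell (d L : ℕ → ℝ) (lam : ℝ) : ℝ := (∑' i, a d lam i * L i) / Z d lam

lemma Z_ge (hκ : 0 < κ) (h0 : d 0 = 0) (hd : ∀ i, κ ≤ d (i+1) - d i) {lam : ℝ} (hl : 0 < lam) :
    1 ≤ Z d lam := by
  rw [← a_zero d lam]
  exact (a_summable hκ h0 hd lam).le_tsum 0 (fun j _ => (a_pos hκ h0 hd hl j).le)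

/-- tail sums -/
noncomputable def T (d L : ℕ → ℝ) (lam : ℝ) (i : ℕ) : ℝ :=
  ∑' k, a d lam (k + i) * (L (k + i) - ell d L lam)

noncomputable def h (d L : ℕ → ℝ) (lam : ℝ) (i : ℕ) : ℝ := T d L lam (i+1) / (lam * a d lam i)

section poisson
variable {L : ℕ → ℝ} {lam : ℝ}

lemma T_summable (hκ : 0 < κ) (h0 : d 0 = 0) (hd : ∀ i, κ ≤ d (i+1) - d i) (hl : 0 < lam)
    (hL0 : ∀ i, 0 ≤ L i) (hLd : ∀ i, L i ≤ d i) :
    Summable (fun i => a d lam i * (L i - ell d L lam)) := by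
  have h1 := aL_summable hκ h0 hd hl hL0 hLd
  have h2 := (a_summable hκ h0 hd lam).mul_right (ell d L lam)
  refine (h1.sub h2).congr (fun i => by ring)

lemma T_zero (hκ : 0 < κ) (h0 : d 0 = 0) (hd : ∀ i, κ ≤ d (i+1) - d i) (hl : 0 < lam)
    (hL0 : ∀ i, 0 ≤ L i) (hLd : ∀ i, L i ≤ d i) : T d L lam 0 = 0 := by
  have h1 := aL_summable hκ h0 hd hl hL0 hLd
  have h2 := (a_summable hκ h0 hd lam).mul_right (ell d L lam)
  have hZ := Z_ge hκ h0 hd hl
  have h3 : T d L lam 0 = ∑' i, (a d lam i * L i - a d lam i * ell d L lam) := by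
    unfold T; congr 1; funext i; simp only [add_zero]; ring
  rw [h3, h1.tsum_sub h2, (a_summable hκ h0 hd lam).tsum_mul_right]
  unfold ell Z at *
  field_simp
  ring

lemma T_succ (hκ : 0 < κ) (h0 : d 0 = 0) (hd : ∀ i, κ ≤ d (i+1) - d i) (hl : 0 < lam)
    (hL0 : ∀ i, 0 ≤ L i) (hLd : ∀ i, L i ≤ d i) (i : ℕ) :
    T d L lam i = a d lam i * (L i - ell d L lam) + T d L lam (i+1) := by
  have hs : Summable (fun k => a d lam (k + i) * (L (k + i) - ell d L lam)) :=
    (summable_nat_add_iff (f := fun i => a d lam i * (L i - ell d L lam)) i).2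
      (T_summable hκ h0 hd hl hL0 hLd)
  unfold T
  rw [hs.tsum_eq_zero_add]
  simp only [zero_add]
  congr 1
  refine tsum_congr (fun k => ?_)
  rw [show k + 1 + i = k + (i + 1) by ring]

/-- Poisson equation -/
lemma poisson (hκ : 0 < κ) (h0 : d 0 = 0) (hd : ∀ i, κ ≤ d (i+1) - d i) (hl : 0 < lam)
    (hL0 : ∀ i, 0 ≤ L i) (hLd : ∀ i, L i ≤ d i) (i : ℕ) :
    lam * h d L lam i + L i - ell d L lam = d i * h d L lam (i-1) := by
  have hap := a_pos hκ h0 hd hl
  have hT := T_succ hκ h0 hd hl hL0 hLd i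
  cases i with
  | zero =>
    rw [T_zero hκ h0 hd hl hL0 hLd, a_zero] at hT
    have e0 : lam * h d L lam 0 = T d L lam (0+1) := by
      unfold h; rw [a_zero]; field_simp
    rw [e0, h0]; linarith
  | succ n =>
    have e0 : a d lam (n+1) * (lam * h d L lam (n+1)) = T d L lam (n+1+1) := by
      unfold h; have := (hap (n+1)).ne'; field_simp
    have e1 : a d lam (n+1) * (d (n+1) * h d L lam n) = T d L lam (n+1) := by
      rw [← mul_assoc, a_bal hκ h0 hd]; unfold h; have := (hap n).ne'; field_simp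
    have e2 : a d lam (n+1) * (lam * h d L lam (n+1) + L (n+1) - ell d L lam)
        = a d lam (n+1) * (d (n+1) * h d L lam n) := by
      rw [e1, hT]; linear_combination e0
    exact mul_left_cancel₀ (hap (n+1)).ne' e2

lemma ell_nonneg (hκ : 0 < κ) (h0 : d 0 = 0) (hd : ∀ i, κ ≤ d (i+1) - d i) (hl : 0 < lam)
    (hL0 : ∀ i, 0 ≤ L i) : 0 ≤ ell d L lam :=
  div_nonneg (tsum_nonneg (fun i => mul_nonneg (a_pos hκ h0 hd hl i).le (hL0 i)))
    (by linarith [Z_ge hκ h0 hd hl])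

lemma tail_le (hκ : 0 < κ) (h0 : d 0 = 0) (hd : ∀ i, κ ≤ d (i+1) - d i) (hl : 0 < lam) (i : ℕ) :
    ∑' k, a d lam (k + i) ≤ a d lam i * Z d lam := by
  unfold Z
  rw [← (a_summable hκ h0 hd lam).tsum_mul_left]
  refine Summable.tsum_le_tsum (fun k => ?_) ?_ ?_
  · rw [add_comm]; exact a_sub hκ h0 hd hl i k
  · exact (summable_nat_add_iff i).2 (a_summable hκ h0 hd lam)
  · exact (a_summable hκ h0 hd lam).mul_left _

lemma h_bdd (hκ : 0 < κ) (h0 : d 0 = 0) (hd : ∀ i, κ ≤ d (i+1) - d i) (hl : 0 < lam)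
    (hL0 : ∀ i, 0 ≤ L i) (hLd : ∀ i, L i ≤ d i) :
    ∃ B, ∀ i, |h d L lam i| ≤ B := by
  have hap := a_pos hκ h0 hd hl
  have hZ := Z_ge hκ h0 hd hl
  have hell := ell_nonneg (L := L) hκ h0 hd hl hL0
  refine ⟨Z d lam + ell d L lam * Z d lam / lam, fun i => ?_⟩
  have hs1 : Summable (fun k => a d lam (k + (i+1)) * L (k + (i+1))) :=
    (summable_nat_add_iff (f := fun i => a d lam i * L i) (i+1)).2 (aL_summable hκ h0 hd hl hL0 hLd)
  have hs2 : Summable (fun k => a d lam (k + (i+1))) :=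
    (summable_nat_add_iff (i+1)).2 (a_summable hκ h0 hd lam)
  have hs3 : Summable (fun k => a d lam (k + i)) :=
    (summable_nat_add_iff i).2 (a_summable hκ h0 hd lam)
  have hT : T d L lam (i+1) = (∑' k, a d lam (k + (i+1)) * L (k + (i+1)))
      - (∑' k, a d lam (k + (i+1))) * ell d L lam := by
    unfold T
    rw [← hs2.tsum_mul_right, ← hs1.tsum_sub (hs2.mul_right _)]
    exact tsum_congr (fun k => by ring)
  have b1 : ∑' k, a d lam (k + (i+1)) * L (k + (i+1)) ≤ lam * (a d lam i * Z d lam) := by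
    refine le_trans ?_ (mul_le_mul_of_nonneg_left (tail_le hκ h0 hd hl i) hl.le)
    rw [← hs3.tsum_mul_left]
    refine Summable.tsum_le_tsum (fun k => ?_) hs1 (hs3.mul_left _)
    rw [← a_bal hκ h0 hd lam (k+i), show k + (i+1) = k + i + 1 by ring]
    exact mul_le_mul_of_nonneg_left (hLd _) (hap _).le
  have b1' : 0 ≤ ∑' k, a d lam (k + (i+1)) * L (k + (i+1)) :=
    tsum_nonneg (fun k => mul_nonneg (hap _).le (hL0 _))
  have b2 : ∑' k, a d lam (k + (i+1)) ≤ a d lam i * Z d lam := by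
    refine le_trans ?_ (tail_le hκ h0 hd hl i)
    rw [hs3.tsum_eq_zero_add]
    have : ∑' k, a d lam (k + (i+1)) = ∑' k, a d lam (k + 1 + i) :=
      tsum_congr (fun k => by rw [show k + (i+1) = k + 1 + i by ring])
    rw [this]
    have := hap (0+i)
    linarith
  have b2' : 0 ≤ ∑' k, a d lam (k + (i+1)) := tsum_nonneg (fun k => (hap _).le)
  have b3 := mul_le_mul_of_nonneg_right b2 hell
  have b3' := mul_nonneg b2' hell
  unfold h
  have hden : 0 < lam * a d lam i := mul_pos hl (hap i)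
  rw [abs_div, abs_of_pos hden, div_le_iff₀ hden, hT]
  have e1 : (Z d lam + ell d L lam * Z d lam / lam) * (lam * a d lam i)
      = lam * (a d lam i * Z d lam) + a d lam i * Z d lam * ell d L lam := by field_simp
  rw [e1, abs_le]
  have c1 : 0 ≤ lam * (a d lam i * Z d lam) := by have := (hap i).le; positivity
  have c2 : 0 ≤ a d lam i * Z d lam * ell d L lam := by have := (hap i).le; positivity
  constructor <;> linarith

end poisson

end

end Pool.V1138.AB
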