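import Pool.Agent.V1138.AB.Smooth

namespace Pool.V1138.AB

open Filter Topology Set

variable {s L : ℕ → ℝ} {κ : ℝ}

lemma a_eq_pow (d : ℕ → ℝ) (lam : ℝ) (i : ℕ) : a d lam i = a d 1 i * lam^i := by
  induction i with
  | zero => simp [a_zero]
  | succ n ih => rw [a_succ, a_succ, ih, pow_succ]; ring

section
variable (H : Hyp s L κ)
include H

lemma Hyp.analyticZ : AnalyticOnNhd ℝ (Z (s+L)) univ := by
  have h1 := analytic_series (a (s+L) 1) (fun r => by
    have h2 := (a_summable H.κpos H.d0 H.dk |r|)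
    refine Summable.of_norm_bounded h2 (fun i => ?_)
    rw [norm_mul, norm_pow, Real.norm_eq_abs, Real.norm_eq_abs, abs_abs,
      abs_of_pos (a_pos H.κpos H.d0 H.dk one_pos i), ← a_eq_pow])
  have h2 : Z (s+L) = fun x : ℝ => ∑' n, a (s+L) 1 n * x^n := by
    funext x; unfold Z; exact tsum_congr (fun i => a_eq_pow _ _ _)
  rwa [h2]

lemma Hyp.analyticF : AnalyticOnNhd ℝ (fun x => ∑' i, a (s+L) x i * L i) univ := by
  have h1 := analytic_series (fun i => a (s+L) 1 i * L i) (fun r => by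
    have h2 := (aL_summable H.κpos H.d0 H.dk (lam := |r|+1) (by positivity) H.Lnn H.Ld)
    refine Summable.of_norm_bounded h2 (fun i => ?_)
    rw [norm_mul, norm_pow, Real.norm_eq_abs, Real.norm_eq_abs, abs_abs, abs_mul,
      abs_of_pos (a_pos H.κpos H.d0 H.dk one_pos i), a_eq_pow _ (|r|+1), abs_of_nonneg (H.Lnn i)]
    have h3 : |r|^i ≤ (|r|+1)^i := pow_le_pow_left₀ (abs_nonneg r) (by linarith) i
    have h4 := mul_nonneg (a_pos H.κpos H.d0 H.dk one_pos i).le (H.Lnn i)
    calc a (s+L) 1 i * L i * |r|^i ≤ a (s+L) 1 i * L i * (|r|+1)^i :=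
          mul_le_mul_of_nonneg_left h3 h4
      _ = a (s+L) 1 i * (|r|+1)^i * L i := by ring)
  have h2 : (fun x => ∑' i, a (s+L) x i * L i) = fun x : ℝ => ∑' n, a (s+L) 1 n * L n * x^n := by
    funext x; exact tsum_congr (fun i => by rw [a_eq_pow _ x]; ring)
  rwa [h2]

lemma Hyp.analyticEll : AnalyticOnNhd ℝ (ell (s+L) L) (Ioi 0) := by
  have h1 := (H.analyticF).mono (subset_univ (Ioi (0:ℝ)))
  have h2 := (H.analyticZ).mono (subset_univ (Ioi (0:ℝ)))
  exact h1.div h2 (fun x hx => by have := Z_ge H.κpos H.d0 H.dk hx; linarith)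

end

/-- the main abstract theorem -/
theorem Hyp.main (H : Hyp s L κ) (hL : ∀ i, ∃ j ≥ i, L j < L (j+1)) {C : ℝ} (hC : ∀ i, s i ≤ C)
    (j : ℕ)
    (hsrc : ∀ lam'' : ℝ, 0 < lam'' →
      0 < ((s (j+1) - s j) - (s (j+2) - s (j+1))) * h (s+L) L lam'' j
      + ((L (j+2) - L (j+1)) - (L (j+1) - L j)) * (1 - h (s+L) L lam'' j)) :
    StrictMonoOn (ell (s+L) L) (Ioi 0) ∧ StrictConvexOn ℝ (Ioi 0) (ell (s+L) L) ∧
    AnalyticOnNhd ℝ (ell (s+L) L) (Ioi 0) ∧
    ContDiffOn ℝ ⊤ (deriv (ell (s+L) L)) (Ioi 0) ∧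
    StrictMonoOn (deriv (ell (s+L) L)) (Ioi 0) ∧
    (∀ x > 0, 0 < deriv (ell (s+L) L) x ∧ deriv (ell (s+L) L) x < 1) ∧
    Tendsto (deriv (ell (s+L) L)) atTop (𝓝 1) := by
  have hmono := H.strictMono hL
  have hconv := H.strictConvex j hsrc
  have han := H.analyticEll
  have hdiff : ∀ x ∈ Ioi (0:ℝ), DifferentiableAt ℝ (ell (s+L) L) x := fun x hx =>
    (han x hx).differentiableAt
  have hd : StrictMonoOn (deriv (ell (s+L) L)) (Ioi 0) := hconv.strictMonoOn_deriv hdiff
  have hle : ∀ x > 0, deriv (ell (s+L) L) x ≤ 1 := by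
    intro x hx
    have h1 := hconv.convexOn.deriv_le_slope (x := x) (y := x+1) hx
      (by simp only [mem_Ioi]; linarith) (by linarith) (hdiff x hx)
    have h2 := H.slope_le_one (x := x) (y := x+1) hx (by linarith)
    rw [slope_def_field] at h1
    have h3 : x + 1 - x = 1 := by ring
    rw [h3] at h1 h2
    rw [div_one] at h1
    linarith
  have hge : ∀ x > 0, 1 - 2 * C / x ≤ deriv (ell (s+L) L) x := by
    intro x hx
    have h1 := hconv.convexOn.slope_le_deriv (x := x/2) (y := x) (by simp only [mem_Ioi]; linarith)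
      hx (by linarith) (hdiff x hx)
    rw [slope_def_field] at h1
    refine le_trans ?_ h1
    have h2 := H.ell_ge hC hx
    have h3 := H.ell_le (lam := x/2) (by linarith)
    rw [le_div_iff₀ (by linarith)]
    have : (1 - 2 * C / x) * (x - x/2) = x/2 - C := by field_simp; ring
    rw [this]; linarith
  refine ⟨hmono, hconv, han, ?_, hd, ?_, ?_⟩
  · exact (han.deriv).contDiffOn (uniqueDiffOn_Ioi 0)
  · intro x hx
    constructor
    · have h1 := hd (show x/2 ∈ Ioi (0:ℝ) by simp only [mem_Ioi]; linarith) hx (by linarith)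
      have h2 : 0 ≤ deriv (ell (s+L) L) (x/2) := by
        have h3 : 0 ≤ derivWithin (ell (s+L) L) (Ioi 0) (x/2) := hmono.monotoneOn.derivWithin_nonneg
        rwa [derivWithin_of_isOpen isOpen_Ioi (by simp only [mem_Ioi]; linarith)] at h3
      linarith
    · have h1 := hd hx (show x+1 ∈ Ioi (0:ℝ) by simp only [mem_Ioi]; linarith) (by linarith)
      exact h1.trans_le (hle (x+1) (by linarith))
  · refine tendsto_of_tendsto_of_tendsto_of_le_of_le' (g := fun x => 1 - 2 * C / x) (h := fun _ => 1)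
      ?_ tendsto_const_nhds ?_ ?_
    · have : Tendsto (fun x : ℝ => 1 - 2 * C / x) atTop (𝓝 (1 - 0)) :=
        tendsto_const_nhds.sub (tendsto_const_nhds.div_atTop tendsto_id)
      simpa using this
    · filter_upwards [eventually_gt_atTop 0] with x hx using hge x hx
    · filter_upwards [eventually_gt_atTop 0] with x hx using hle x hx

end Pool.V1138.AB
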