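import Pool.Agent.V1138.AB.Conv

namespace Pool.V1138.AB

open Filter Topology Set

variable {s L : ℕ → ℝ} {κ : ℝ}

section
variable (H : Hyp s L κ)
include H

/-- performance difference formula -/
lemma Hyp.diff {lam lam' : ℝ} (hl : 0 < lam) (hl' : 0 < lam') :
    ell (s+L) L lam' - ell (s+L) L lam
      = (lam' - lam) * ((∑' i, a (s+L) lam' i * h (s+L) L lam i) / Z (s+L) lam') := by
  obtain ⟨B, hB⟩ := h_bdd H.κpos H.d0 H.dk hl H.Lnn H.Ld
  have hap := a_pos H.κpos H.d0 H.dk hl'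
  have hZ := Z_ge H.κpos H.d0 H.dk hl'
  have sa := a_summable H.κpos H.d0 H.dk lam'
  have sL := aL_summable H.κpos H.d0 H.dk hl' H.Lnn H.Ld
  have sh : Summable (fun i => a (s+L) lam' i * h (s+L) L lam i) := by
    refine Summable.of_norm_bounded (sa.mul_right B) (fun i => ?_)
    rw [norm_mul, Real.norm_eq_abs, Real.norm_eq_abs, abs_of_pos (hap i)]
    exact mul_le_mul_of_nonneg_left (hB i) (hap i).le
  have sd' : Summable (fun i => a (s+L) lam' (i+1) * ((s+L) (i+1) * h (s+L) L lam (i+1-1))) := by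
    refine (sh.mul_left lam').congr (fun i => ?_)
    rw [Nat.add_sub_cancel, ← mul_assoc, ← mul_assoc, a_bal H.κpos H.d0 H.dk]
  have sd : Summable (fun i => a (s+L) lam' i * ((s+L) i * h (s+L) L lam (i-1))) :=
    (summable_nat_add_iff (f := fun i => a (s+L) lam' i * ((s+L) i * h (s+L) L lam (i-1))) 1).1 sd'
  have e1 : ∑' i, a (s+L) lam' i * ((s+L) i * h (s+L) L lam (i-1))
      = lam' * ∑' i, a (s+L) lam' i * h (s+L) L lam i := by
    rw [sd.tsum_eq_zero_add, H.d0, ← sh.tsum_mul_left]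
    simp only [zero_mul, mul_zero, zero_add]
    refine tsum_congr (fun i => ?_)
    rw [Nat.add_sub_cancel, ← mul_assoc, ← mul_assoc, a_bal H.κpos H.d0 H.dk]
  have e2 : ∑' i, a (s+L) lam' i * ((s+L) i * h (s+L) L lam (i-1))
      = lam * (∑' i, a (s+L) lam' i * h (s+L) L lam i) + (∑' i, a (s+L) lam' i * L i)
        - (∑' i, a (s+L) lam' i) * ell (s+L) L lam := by
    rw [← sh.tsum_mul_left, ← sa.tsum_mul_right, ← (sh.mul_left lam).tsum_add sL,
      ← ((sh.mul_left lam).add sL).tsum_sub (sa.mul_right _)]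
    refine tsum_congr (fun i => ?_)
    rw [← poisson H.κpos H.d0 H.dk hl H.Lnn H.Ld i]
    ring
  have e3 : ell (s+L) L lam' * Z (s+L) lam' = ∑' i, a (s+L) lam' i * L i := by
    unfold ell; rw [div_mul_cancel₀]; linarith
  have hZ0 : Z (s+L) lam' ≠ 0 := by linarith
  rw [e1, ← e3] at e2
  field_simp
  have e4 : (∑' i, a (s+L) lam' i) = Z (s+L) lam' := rfl
  rw [e4] at e2
  linear_combination -e2

lemma Hyp.sh_summable {lam lam' : ℝ} (hl : 0 < lam) (hl' : 0 < lam') :
    Summable (fun i => a (s+L) lam' i * h (s+L) L lam i) := by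
  obtain ⟨B, hB⟩ := h_bdd H.κpos H.d0 H.dk hl H.Lnn H.Ld
  have hap := a_pos H.κpos H.d0 H.dk hl'
  have sa := a_summable H.κpos H.d0 H.dk lam'
  refine Summable.of_norm_bounded (sa.mul_right B) (fun i => ?_)
  rw [norm_mul, Real.norm_eq_abs, Real.norm_eq_abs, abs_of_pos (hap i)]
  exact mul_le_mul_of_nonneg_left (hB i) (hap i).le

lemma Hyp.slope_eq {lam lam' : ℝ} (hl : 0 < lam) (hl' : 0 < lam') (hne : lam ≠ lam') :
    (ell (s+L) L lam' - ell (s+L) L lam) / (lam' - lam)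
      = (∑' i, a (s+L) lam' i * h (s+L) L lam i) / Z (s+L) lam' := by
  rw [H.diff hl hl', mul_div_cancel_left₀ _ (sub_ne_zero.mpr hne.symm)]

lemma Hyp.slope_eq' {lam lam' : ℝ} (hl : 0 < lam) (hl' : 0 < lam') (hne : lam ≠ lam') :
    (ell (s+L) L lam' - ell (s+L) L lam) / (lam' - lam)
      = (∑' i, a (s+L) lam i * h (s+L) L lam' i) / Z (s+L) lam := by
  rw [← H.slope_eq hl' hl hne.symm, ← neg_div_neg_eq, neg_sub, neg_sub]

/-- strict convexity -/
lemma Hyp.strictConvex (j : ℕ)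
    (hsrc : ∀ lam'' : ℝ, 0 < lam'' →
      0 < ((s (j+1) - s j) - (s (j+2) - s (j+1))) * h (s+L) L lam'' j
      + ((L (j+2) - L (j+1)) - (L (j+1) - L j)) * (1 - h (s+L) L lam'' j)) :
    StrictConvexOn ℝ (Ioi 0) (ell (s+L) L) := by
  refine strictConvexOn_of_slope_strict_mono_adjacent (convex_Ioi 0) ?_
  intro x y z hx hz hxy hyz
  simp only [mem_Ioi] at hx hz
  have hy : 0 < y := hx.trans hxy
  rw [H.slope_eq hx hy hxy.ne, H.slope_eq' hy hz hyz.ne]
  have hZ := Z_ge H.κpos H.d0 H.dk hy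
  apply div_lt_div_of_pos_right _ (by linarith)
  obtain ⟨i, hi⟩ := H.k_pos hx (hxy.trans hyz) j hsrc
  refine Summable.tsum_lt_tsum (i := i) (fun i => ?_) ?_ (H.sh_summable hx hy) (H.sh_summable hz hy)
  · exact mul_le_mul_of_nonneg_left (by linarith [H.k_nn hx (hxy.trans hyz).le i])
      (a_pos H.κpos H.d0 H.dk hy i).le
  · exact mul_lt_mul_of_pos_left (by linarith) (a_pos H.κpos H.d0 H.dk hy i)

lemma Hyp.strictMono (hL : ∀ i, ∃ j ≥ i, L j < L (j+1)) :
    StrictMonoOn (ell (s+L) L) (Ioi 0) := by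
  intro x hx y hy hxy
  simp only [mem_Ioi] at hx hy
  have h1 := H.diff hx hy
  have hZ := Z_ge H.κpos H.d0 H.dk hy
  have h2 : 0 < ∑' i, a (s+L) y i * h (s+L) L x i := by
    refine (H.sh_summable hx hy).tsum_pos (fun i => ?_) 0 ?_
    · exact mul_nonneg (a_pos H.κpos H.d0 H.dk hy i).le (H.hnn hx i)
    · exact mul_pos (a_pos H.κpos H.d0 H.dk hy 0) (H.hpos hL hx 0)
  have h3 : 0 < (y - x) * ((∑' i, a (s+L) y i * h (s+L) L x i) / Z (s+L) y) :=
    mul_pos (by linarith) (div_pos h2 (by linarith))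
  linarith

lemma Hyp.slope_le_one {x y : ℝ} (hx : 0 < x) (hxy : x < y) :
    ell (s+L) L y - ell (s+L) L x ≤ y - x := by
  have hy : 0 < y := hx.trans hxy
  have h1 := H.diff hx hy
  have hZ := Z_ge H.κpos H.d0 H.dk hy
  have h2 : (∑' i, a (s+L) y i * h (s+L) L x i) ≤ Z (s+L) y := by
    refine (H.sh_summable hx hy).tsum_le_tsum (fun i => ?_) (a_summable H.κpos H.d0 H.dk y)
    have := mul_le_mul_of_nonneg_left (H.hle hx i) (a_pos H.κpos H.d0 H.dk hy i).le
    simpa using this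
  have h3 : (∑' i, a (s+L) y i * h (s+L) L x i) / Z (s+L) y ≤ 1 := by
    rw [div_le_one (by linarith)]; exact h2
  rw [h1]
  nlinarith

lemma Hyp.ell_le {lam : ℝ} (hl : 0 < lam) : ell (s+L) L lam ≤ lam := by
  have hZ := Z_ge H.κpos H.d0 H.dk hl
  have hap := a_pos H.κpos H.d0 H.dk hl
  have sa := a_summable H.κpos H.d0 H.dk lam
  have sL := aL_summable H.κpos H.d0 H.dk hl H.Lnn H.Ld
  have sd := aL_summable H.κpos H.d0 H.dk hl (d_nonneg H.κpos H.d0 H.dk) (fun i => le_refl _)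
  unfold ell
  rw [div_le_iff₀ (by linarith)]
  calc ∑' i, a (s+L) lam i * L i ≤ ∑' i, a (s+L) lam i * (s+L) i :=
        sL.tsum_le_tsum (fun i => mul_le_mul_of_nonneg_left (H.Ld i) (hap i).le) sd
    _ = lam * Z (s+L) lam := by
        rw [sd.tsum_eq_zero_add, H.d0, mul_zero, zero_add]
        unfold Z; rw [← sa.tsum_mul_left]
        exact tsum_congr (fun i => a_bal H.κpos H.d0 H.dk _ _)

lemma Hyp.ell_ge {C : ℝ} (hC : ∀ i, s i ≤ C) {lam : ℝ} (hl : 0 < lam) :
    lam - C ≤ ell (s+L) L lam := by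
  have hZ := Z_ge H.κpos H.d0 H.dk hl
  have hap := a_pos H.κpos H.d0 H.dk hl
  have sa := a_summable H.κpos H.d0 H.dk lam
  have sL := aL_summable H.κpos H.d0 H.dk hl H.Lnn H.Ld
  have sd := aL_summable H.κpos H.d0 H.dk hl (d_nonneg H.κpos H.d0 H.dk) (fun i => le_refl _)
  unfold ell
  rw [le_div_iff₀ (by linarith)]
  have e1 : ∑' i, a (s+L) lam i * (s+L) i = lam * Z (s+L) lam := by
    rw [sd.tsum_eq_zero_add, H.d0, mul_zero, zero_add]
    unfold Z; rw [← sa.tsum_mul_left]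
    exact tsum_congr (fun i => a_bal H.κpos H.d0 H.dk _ _)
  have e2 : ∑' i, a (s+L) lam i * (s+L) i ≤ ∑' i, (a (s+L) lam i * L i + a (s+L) lam i * C) := by
    refine sd.tsum_le_tsum (fun i => ?_) (sL.add (sa.mul_right C))
    rw [← mul_add]
    refine mul_le_mul_of_nonneg_left ?_ (hap i).le
    simp only [Pi.add_apply]
    linarith [hC i]
  rw [sL.tsum_add (sa.mul_right C), sa.tsum_mul_right, e1] at e2
  have e3 : (∑' i, a (s+L) lam i) = Z (s+L) lam := rfl
  rw [e3] at e2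
  linarith

end

/-- analyticity of a power series with superexponentially small coefficients -/
lemma analytic_series (c : ℕ → ℝ) (hc : ∀ r : ℝ, Summable (fun n => |c n| * r^n)) :
    AnalyticOnNhd ℝ (fun x : ℝ => ∑' n, c n * x^n) univ := by
  set p : FormalMultilinearSeries ℝ ℝ ℝ := FormalMultilinearSeries.ofScalars ℝ c with hp
  have hr : p.radius = ⊤ := by
    apply FormalMultilinearSeries.radius_eq_top_of_summable_norm
    intro r
    refine (hc r).congr (fun n => ?_)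
    rw [hp, FormalMultilinearSeries.ofScalars_norm, Real.norm_eq_abs]
  have h1 : HasFPowerSeriesOnBall p.sum p 0 ⊤ := by
    have := p.hasFPowerSeriesOnBall (by rw [hr]; exact ENNReal.zero_lt_top)
    rwa [hr] at this
  have h2 : AnalyticOnNhd ℝ p.sum univ := by
    have := h1.analyticOnNhd
    simpa using this
  have h3 : p.sum = (fun x : ℝ => ∑' n, c n * x^n) := by
    funext x
    rw [hp]
    have := FormalMultilinearSeries.ofScalars_sum_eq (E := ℝ) c x
    unfold FormalMultilinearSeries.ofScalarsSum at this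
    rw [this]
    exact tsum_congr (fun n => by simp)
  rwa [h3] at h2

end Pool.V1138.AB
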